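import Mathlib

set_option autoImplicit false

namespace Pool.Agent.Results.MP_071b90_al.ConjectureFails

open ExteriorAlgebra Module

section Defs

variable (K : Type) [Field K] (n : ℕ)

/-- `V_n = K^n` -/
abbrev V := Fin n → K

noncomputable instance : AddCommMonoid (V K n) := inferInstance
noncomputable instance : AddCommGroup (V K n) := inferInstance
noncomputable instance : Module K (V K n) := inferInstance

/-- `⋀ V_n` -/
abbrev E := ExteriorAlgebra K (V K n)

/-! The next instances are the ones of Mathlib, named so that terms stay short. -/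

noncomputable instance : Ring (E K n) := inferInstance
noncomputable instance : Semiring (E K n) := inferInstance
noncomputable instance : Algebra K (E K n) := inferInstance
noncomputable instance : AddCommMonoid (E K n) := inferInstance
noncomputable instance : Module K (E K n) := inferInstance

/-- the standard basis `x_1, …, x_n` of `V_n` -/
noncomputable def stdBasis : Basis (Fin n) K (V K n) := Pi.basisFun K (Fin n)

/-- Mathlib's basis of `⋀ V_n` formed by the `x_S = x_{s_1} ∧ ⋯ ∧ x_{s_k}`,
`S = {s_1 < ⋯ < s_k}`. -/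
noncomputable def extBasis : Basis (Finset (Fin n)) K (E K n) :=
  Module.Basis.ExteriorAlgebra (stdBasis K n)

/-- The basis element `x_S = x_{s_1} ∧ ⋯ ∧ x_{s_k}` for `S = {s_1 < ⋯ < s_k}`. -/
noncomputable def x (S : Finset (Fin n)) : E K n := extBasis K n S

/-- `f` is a generic form of degree `d`: `f = ∑_{|S| = d} c_S x_S` where the `c_S` are pairwise
distinct, lie outside `ℚ` and are algebraically independent over `ℚ`. -/
def IsGeneric [CharZero K] (d : ℕ) (f : E K n) : Prop :=
  ∃ c : {S : Finset (Fin n) // S.card = d} → K,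
    Function.Injective c ∧ (∀ S, c S ∉ Set.range (algebraMap ℚ K)) ∧ AlgebraicIndependent ℚ c ∧
      f = ∑ S, c S • x K n S

/-- the degree `r` part of the (two-sided) principal ideal `(f)` -/
noncomputable def idealPart (f : E K n) (r : ℕ) : Submodule K (E K n) :=
  ⋀[K]^r (V K n) ⊓ (TwoSidedIdeal.asIdeal (TwoSidedIdeal.span {f})).restrictScalars K

/-- the degree `r` part of `ann(f) = {g : g ∧ f = 0}` -/
noncomputable def annPart (f : E K n) (r : ℕ) : Submodule K (E K n) :=
  ⋀[K]^r (V K n) ⊓ LinearMap.ker (LinearMap.mulRight K f)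

/-- the coefficient of `t^r` in `Δ_{n,d}(t)`; here `⌈(n-d)/2⌉ ≤ r` is written `n - d ≤ 2 r` -/
def deltaCoeff (n d r : ℕ) : ℤ :=
  if n - d ≤ 2 * r ∧ r ≤ n then (n.choose r : ℤ) - (n.choose (r + d) : ℤ) else 0

/-- the coefficient of `t^r` in `τ_{n,d}(t)`, computed with the form `f` of degree `d` -/
noncomputable def tauCoeff (d : ℕ) (f : E K n) (r : ℕ) : ℤ :=
  (finrank K (annPart K n f r) : ℤ) - max (finrank K (idealPart K n f r) : ℤ) (deltaCoeff n d r)

end Defs

/-- the conjectured coefficient of `t^r`:
it is `1` if `n - d = (v^2 + 5v)/2 - 1`, `d = 5 + 2vs`, `r = v(v+1)/2`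
for some integers `v ≥ 1`, `s ≥ 0`, and `0` otherwise -/
noncomputable def conjCoeff (n d r : ℕ) : ℤ :=
  open Classical in
  if ∃ v s : ℕ, 1 ≤ v ∧ 2 * (n - d) + 2 = v ^ 2 + 5 * v ∧ d = 5 + 2 * v * s ∧
    r = v * (v + 1) / 2 then 1 else 0

/-- The conjecture: for odd `d > 3`, `n ≥ d` and `f` generic of degree `d` over a field of
characteristic `0`, the series `τ_{n,d}(t)` has the displayed coefficients. -/
def Conjecture : Prop :=
  ∀ (K : Type) [Field K] [CharZero K] (n d : ℕ), Odd d → 3 < d → d ≤ n →
    ∀ f : E K n, IsGeneric K n d f → ∀ r : ℕ, tauCoeff K n d f r = conjCoeff n d r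

section Proof

variable {K : Type} [Field K] {n : ℕ}

/-- graded commutativity, vector case -/
theorem ι_mul_comm (v : Fin n → K) {s : ℕ} {y : E K n} (hy : y ∈ ⋀[K]^s (V K n)) :
    ExteriorAlgebra.ι K v * y = (-1 : K) ^ s • (y * ExteriorAlgebra.ι K v) := by
  induction hy using Submodule.pow_induction_on_left' with
  | algebraMap r => simp [Algebra.commutes]
  | add x y i _ _ hx hy => rw [mul_add, hx, hy, add_mul, smul_add]
  | mem_mul m hm i x _ ih =>
    obtain ⟨w, rfl⟩ := hm
    have h : ExteriorAlgebra.ι K v * ExteriorAlgebra.ι K w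
        = - (ExteriorAlgebra.ι K w * ExteriorAlgebra.ι K v) :=
      eq_neg_of_add_eq_zero_left (ExteriorAlgebra.ι_add_mul_swap v w)
    rw [← mul_assoc, h, neg_mul, mul_assoc, ih, mul_smul_comm, mul_assoc, pow_succ]
    simp

theorem graded_comm {r s : ℕ} {x y : E K n} (hx : x ∈ ⋀[K]^r (V K n))
    (hy : y ∈ ⋀[K]^s (V K n)) : x * y = (-1 : K) ^ (r * s) • (y * x) := by
  induction hx using Submodule.pow_induction_on_left' with
  | algebraMap r => simp [Algebra.commutes]
  | add x y i _ _ hx hy => rw [add_mul, hx, hy, mul_add, smul_add]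
  | mem_mul m hm i x _ ih =>
    obtain ⟨w, rfl⟩ := hm
    rw [mul_assoc, ih, mul_smul_comm, ← mul_assoc, ι_mul_comm w hy, smul_mul_assoc, smul_smul,
      mul_assoc, ← pow_add]
    congr 2
    rw [Nat.succ_eq_add_one]
    ring

theorem x_mem {S : Finset (Fin n)} {r : ℕ} (h : S.card = r) : x K n S ∈ ⋀[K]^r (V K n) := by
  subst h
  have := ExteriorAlgebra.basis_eq_coe_basis (stdBasis K n) (m := S.card)
    (Set.powersetCard.ofCard rfl : Set.powersetCard (Fin n) S.card)
  rw [Set.powersetCard.val_ofCard] at this
  rw [x, extBasis, this]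
  exact Submodule.coe_mem _

theorem x_mul_not_disjoint {T U : Finset (Fin n)} (h : ¬ Disjoint T U) : x K n T * x K n U = 0 :=
  ExteriorAlgebra.basis_mul_of_not_disjoint (stdBasis K n)
    (Set.powersetCard.ofCard rfl : Set.powersetCard (Fin n) T.card)
    (Set.powersetCard.ofCard rfl : Set.powersetCard (Fin n) U.card) h

theorem x_mul_disjoint_aux {a b : ℕ} (A : Set.powersetCard (Fin n) a)
    (B : Set.powersetCard (Fin n) b) (h : Disjoint A.val B.val) :
    ∃ ε : K, ε ≠ 0 ∧ x K n A.val * x K n B.val = ε • x K n (A.val ∪ B.val) := by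
  have h1 := ExteriorAlgebra.basis_mul_of_disjoint (stdBasis K n) A B h
  have e : (Set.powersetCard.disjUnion h).val = A.val ∪ B.val := Finset.disjUnion_eq_union _ _ h
  rw [e] at h1
  rcases Int.units_eq_one_or (Equiv.Perm.sign (Set.powersetCard.permOfDisjoint h)) with hs | hs
  · refine ⟨1, one_ne_zero, ?_⟩
    rw [x, x, x, extBasis, h1, hs, one_smul, one_smul]
  · refine ⟨-1, neg_ne_zero.mpr one_ne_zero, ?_⟩
    rw [x, x, x, extBasis, h1, hs, Units.neg_smul, one_smul, neg_smul, one_smul]

theorem x_mul_disjoint {T U : Finset (Fin n)} (h : Disjoint T U) :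
    ∃ ε : K, ε ≠ 0 ∧ x K n T * x K n U = ε • x K n (T ∪ U) :=
  x_mul_disjoint_aux (Set.powersetCard.ofCard rfl : Set.powersetCard (Fin n) T.card)
    (Set.powersetCard.ofCard rfl : Set.powersetCard (Fin n) U.card) h

/-- the coordinate functionals -/
noncomputable def co (K : Type) [Field K] (n : ℕ) (S : Finset (Fin n)) : E K n →ₗ[K] K :=
  (extBasis K n).coord S

theorem co_x (S T : Finset (Fin n)) : co K n S (x K n T) = if T = S then 1 else 0 := by
  rw [co, x, Basis.coord_apply, Basis.repr_self, Finsupp.single_apply]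

theorem co_ext {y : E K n} (h : ∀ S, co K n S y = 0) : y = 0 := by
  apply (extBasis K n).ext_elem
  intro S
  have := h S
  rw [co, Basis.coord_apply] at this
  rw [this, map_zero]
  rfl

theorem top_pair (T : Finset (Fin n)) :
    ∃ ε : K, ε ≠ 0 ∧ ∀ y : E K n, co K n Finset.univ (x K n T * y) = ε * co K n Tᶜ y := by
  obtain ⟨ε, h0, hε⟩ := x_mul_disjoint (K := K) (T := T) (U := Tᶜ) disjoint_compl_right
  refine ⟨ε, h0, ?_⟩
  have key : (co K n Finset.univ).comp (LinearMap.mulLeft K (x K n T)) = ε • co K n Tᶜ := by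
    apply (extBasis K n).ext
    intro U
    change co K n Finset.univ (x K n T * x K n U) = ε • co K n Tᶜ (x K n U)
    by_cases hU : U = Tᶜ
    · subst hU
      rw [hε, co_x, if_pos rfl, Finset.union_compl, map_smul, co_x, if_pos rfl]
    · rw [co_x, if_neg hU, smul_zero]
      by_cases hd : Disjoint T U
      · obtain ⟨δ, -, hδ⟩ := x_mul_disjoint (K := K) hd
        rw [hδ, map_smul, co_x, if_neg, smul_zero]
        intro h
        apply hU
        exact (IsCompl.of_eq (Finset.disjoint_iff_inter_eq_empty.mp hd) h).compl_eq.symm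
      · rw [x_mul_not_disjoint hd, map_zero]
  intro y
  exact LinearMap.congr_fun key y

/-- elements of degree `r` have coordinates only at sets of size `r` -/
theorem co_eq_zero {r : ℕ} {y : E K n} (hy : y ∈ ⋀[K]^r (V K n)) {S : Finset (Fin n)}
    (hS : S.card ≠ r) : co K n S y = 0 := by
  have key : (co K n S).comp (⋀[K]^r (V K n)).subtype = 0 := by
    apply ((stdBasis K n).exteriorPower r).ext
    intro t
    rw [LinearMap.comp_apply, Submodule.subtype_apply, ← ExteriorAlgebra.basis_eq_coe_basis,
      LinearMap.zero_apply]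
    change co K n S (x K n t) = 0
    rw [co_x, if_neg]
    rintro rfl
    exact hS t.2
  exact LinearMap.congr_fun key ⟨y, hy⟩

/-- The parity argument: if `m` is odd, `n = d + 2m`, and `C(n,m)` is odd then every form `f` of
degree `d` is killed by a nonzero form of degree `m`. -/
theorem exists_ann [CharZero K] {d m : ℕ} (hn : n = d + 2 * m) (hm : Odd m)
    (hc : Odd (n.choose m)) {f : E K n} (hf : f ∈ ⋀[K]^d (V K n)) :
    ∃ g : E K n, g ≠ 0 ∧ g ∈ ⋀[K]^m (V K n) ∧ g * f = 0 := by
  classical
  let I := {S : Finset (Fin n) // S.card = m}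
  let M : Matrix I I K := fun S T => co K n Finset.univ (x K n S * (x K n T * f))
  have hskew : M.transpose = -M := by
    ext S T
    change co K n Finset.univ (x K n T * (x K n S * f))
      = - co K n Finset.univ (x K n S * (x K n T * f))
    rw [← mul_assoc, graded_comm (x_mem T.2) (x_mem S.2), (hm.mul hm).neg_one_pow]
    rw [neg_smul, one_smul, neg_mul, map_neg, mul_assoc]
  have hcard : Fintype.card I = n.choose m := by
    rw [Fintype.card_finset_len, Fintype.card_fin]
  have hdet : M.det = 0 := by
    have h1 : M.det = -M.det := by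
      conv_lhs => rw [← Matrix.det_transpose, hskew, Matrix.det_neg, hcard, hc.neg_one_pow]
      ring
    have h2 : (2 : K) * M.det = 0 := by linear_combination h1
    exact (mul_eq_zero.mp h2).resolve_left two_ne_zero
  obtain ⟨c, hc0, hc1⟩ := Matrix.exists_mulVec_eq_zero_iff.mpr hdet
  refine ⟨∑ T : I, c T • x K n T, ?_, ?_, ?_⟩
  · intro h
    apply hc0
    funext S
    have h3 := congrArg (co K n S) h
    rw [map_sum, map_zero] at h3
    rw [Finset.sum_eq_single S] at h3
    · rw [map_smul, co_x, if_pos rfl, smul_eq_mul, mul_one] at h3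
      exact h3
    · intro T _ hT
      rw [map_smul, co_x, if_neg, smul_zero]
      intro h4
      exact hT (Subtype.ext h4)
    · intro h4
      exact absurd (Finset.mem_univ _) h4
  · exact Submodule.sum_mem _ fun T _ => Submodule.smul_mem _ _ (x_mem T.2)
  · have hg : (∑ T : I, c T • x K n T) ∈ ⋀[K]^m (V K n) :=
      Submodule.sum_mem _ fun T _ => Submodule.smul_mem _ _ (x_mem T.2)
    have hgf : (∑ T : I, c T • x K n T) * f ∈ ⋀[K]^(m + d) (V K n) :=
      SetLike.GradedMul.mul_mem hg hf
    apply co_ext
    intro U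
    by_cases hU : U.card = m + d
    · have hUc : Uᶜ.card = m := by
        rw [Finset.card_compl, Fintype.card_fin, hU]
        omega
      obtain ⟨ε, h0, hε⟩ := top_pair (K := K) (Uᶜ)
      have h5 := hε ((∑ T : I, c T • x K n T) * f)
      rw [compl_compl] at h5
      have h6 : co K n Finset.univ (x K n Uᶜ * ((∑ T : I, c T • x K n T) * f)) = 0 := by
        have h7 := congrFun hc1 ⟨Uᶜ, hUc⟩
        rw [Finset.sum_mul, Finset.mul_sum, map_sum]
        simp only [Matrix.mulVec, dotProduct, M, Pi.zero_apply] at h7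
        rw [← h7]
        apply Finset.sum_congr rfl
        intro T _
        rw [smul_mul_assoc, mul_smul_comm, map_smul, smul_eq_mul, mul_comm]
      rw [h6] at h5
      exact (mul_eq_zero.mp h5.symm).resolve_left h0
    · exact co_eq_zero hgf hU

theorem co_mul_low {d : ℕ} (a y : E K n) (hy : ∀ S : Finset (Fin n), S.card < d → co K n S y = 0)
    (S : Finset (Fin n)) (hS : S.card < d) : co K n S (a * y) = 0 ∧ co K n S (y * a) = 0 := by
  have ha : a = ∑ T, co K n T a • x K n T :=
    ((extBasis K n).sum_repr a).symm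
  have hy' : y = ∑ T, co K n T y • x K n T :=
    ((extBasis K n).sum_repr y).symm
  constructor
  · rw [ha, hy', Finset.sum_mul, map_sum]
    apply Finset.sum_eq_zero
    intro T _
    rw [Finset.mul_sum, map_sum]
    apply Finset.sum_eq_zero
    intro U _
    by_cases hU : U.card < d
    · rw [hy U hU, zero_smul, mul_zero, map_zero]
    · rw [smul_mul_assoc, mul_smul_comm, map_smul, map_smul]
      by_cases hd : Disjoint T U
      · obtain ⟨ε, -, hε⟩ := x_mul_disjoint (K := K) hd
        rw [hε, map_smul, co_x, if_neg, smul_zero, smul_zero, smul_zero]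
        rintro rfl
        exact hU (lt_of_le_of_lt (Finset.card_le_card Finset.subset_union_right) hS)
      · rw [x_mul_not_disjoint hd, map_zero, smul_zero, smul_zero]
  · rw [ha, hy', Finset.sum_mul, map_sum]
    apply Finset.sum_eq_zero
    intro U _
    by_cases hU : U.card < d
    · rw [hy U hU, zero_smul, zero_mul, map_zero]
    · rw [Finset.mul_sum, map_sum]
      apply Finset.sum_eq_zero
      intro T _
      rw [smul_mul_assoc, mul_smul_comm, map_smul, map_smul]
      by_cases hd : Disjoint U T
      · obtain ⟨ε, -, hε⟩ := x_mul_disjoint (K := K) hd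
        rw [hε, map_smul, co_x, if_neg, smul_zero, smul_zero, smul_zero]
        rintro rfl
        exact hU (lt_of_le_of_lt (Finset.card_le_card Finset.subset_union_left) hS)
      · rw [x_mul_not_disjoint hd, map_zero, smul_zero, smul_zero]

theorem span_low {d : ℕ} {f : E K n} (hf : f ∈ ⋀[K]^d (V K n)) {y : E K n}
    (hy : y ∈ TwoSidedIdeal.span {f}) : ∀ S : Finset (Fin n), S.card < d → co K n S y = 0 := by
  induction hy using TwoSidedIdeal.span_induction with
  | mem z hz =>
    intro S hS
    rw [Set.mem_singleton_iff] at hz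
    subst hz
    exact co_eq_zero hf (by omega)
  | zero => intro S _; exact map_zero _
  | add a b _ _ ha hb =>
    intro S hS
    rw [map_add, ha S hS, hb S hS, add_zero]
  | neg a _ ha =>
    intro S hS
    rw [map_neg, ha S hS, neg_zero]
  | left_absorb a b _ hb =>
    intro S hS
    exact (co_mul_low a b hb S hS).1
  | right_absorb a b _ hb =>
    intro S hS
    exact (co_mul_low a b hb S hS).2

/-- elements of the ideal generated by a form of degree `d` have no components in degrees
below `d` -/
theorem ideal_low {d m : ℕ} (hmd : m < d) {f : E K n} (hf : f ∈ ⋀[K]^d (V K n)) {y : E K n}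
    (hy : y ∈ idealPart K n f m) : y = 0 := by
  obtain ⟨h1, h2⟩ := hy
  apply co_ext
  intro S
  by_cases hS : S.card = m
  · exact span_low hf h2 S (by omega)
  · exact co_eq_zero h1 hS

theorem tau_pos [CharZero K] {d m : ℕ} (hn : n = d + 2 * m) (hm : Odd m) (hmd : m < d)
    (hc : Odd (n.choose m)) {f : E K n} (hf : f ∈ ⋀[K]^d (V K n)) :
    1 ≤ tauCoeff K n d f m := by
  have : Module.Finite K (E K n) := Module.Finite.of_basis (extBasis K n)
  obtain ⟨g, hg0, hg1, hg2⟩ := exists_ann hn hm hc hf
  have h1 : 1 ≤ finrank K (annPart K n f m) := by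
    have hmem : g ∈ annPart K n f m := by
      refine ⟨hg1, ?_⟩
      exact hg2
    have : Nontrivial (annPart K n f m) := ⟨⟨⟨g, hmem⟩, 0, by
      intro h
      exact hg0 (congrArg Subtype.val h)⟩⟩
    exact finrank_pos
  have h2 : finrank K (idealPart K n f m) = 0 := by
    have : idealPart K n f m = ⊥ := by
      rw [Submodule.eq_bot_iff]
      intro y hy
      exact ideal_low hmd hf hy
    rw [this, finrank_bot]
  have h3 : deltaCoeff n d m = 0 := by
    unfold deltaCoeff
    rw [if_pos ⟨by omega, by omega⟩]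
    have : n.choose (m + d) = n.choose m := by
      apply Nat.choose_symm_of_eq_add
      omega
    rw [this, sub_self]
  unfold tauCoeff
  rw [h2, h3, Nat.cast_zero, max_self]
  omega

theorem generic_mem [CharZero K] {d : ℕ} {f : E K n} (hf : IsGeneric K n d f) :
    f ∈ ⋀[K]^d (V K n) := by
  obtain ⟨c, -, -, -, rfl⟩ := hf
  exact Submodule.sum_mem _ fun T _ => Submodule.smul_mem _ _ (x_mem T.2)

end Proof

/-- There is a generic form over a suitable field. -/
theorem exists_generic (n d : ℕ) : ∃ (K : Type) (_ : Field K) (_ : CharZero K) (f : E K n),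
    IsGeneric K n d f := by
  let I := {S : Finset (Fin n) // S.card = d}
  let P := MvPolynomial I ℚ
  have hinj : Function.Injective (algebraMap P (FractionRing P)) := IsFractionRing.injective _ _
  have hc0 : CharZero (FractionRing P) := charZero_of_injective_algebraMap hinj
  let φ : P →ₐ[ℚ] FractionRing P := (algebraMap P (FractionRing P)).toRatAlgHom
  have hφ : Function.Injective φ := hinj
  have hA : AlgebraicIndependent ℚ (fun S : I => φ (MvPolynomial.X S)) :=
    (MvPolynomial.algebraicIndependent_X I ℚ).map' hφ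
  refine ⟨FractionRing P, inferInstance, hc0,
    ∑ S : I, φ (MvPolynomial.X S) • x (FractionRing P) n S,
    fun S => φ (MvPolynomial.X S), hA.injective, ?_, hA, rfl⟩
  rintro S ⟨q, hq⟩
  have ht := hA.transcendental S
  apply ht
  have hq' : φ (MvPolynomial.X S) = algebraMap ℚ (FractionRing P) q := hq.symm
  rw [hq']
  exact isAlgebraic_algebraMap q

theorem conj_zero {d m : ℕ} (h5 : 5 ≤ m) : conjCoeff (d + 2 * m) d m = 0 := by
  unfold conjCoeff
  rw [if_neg]
  rintro ⟨v, s, hv, h, -, hr⟩
  have h1 : 2 * (2 * m) + 2 = v ^ 2 + 5 * v := by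
    rw [← h]
    congr 2
    omega
  have h2 : 2 * m = v * (v + 1) := by
    have h3 : 2 ∣ v * (v + 1) := (Nat.even_mul_succ_self v).two_dvd
    omega
  have h4 : v ^ 2 + 2 = 3 * v := by nlinarith
  have hv3 : v < 3 := by nlinarith
  interval_cases v <;> omega

/-- The conjecture is false.  More precisely, let `m ≥ 5` be odd, `d > m` odd, `n = d + 2m`, and
suppose that `C(n,m)` is odd (for instance `m = 5`, `d = 11`, `n = 21`).  Then, over every field of
characteristic zero and for every generic `f`, the coefficient of `t^m` in `τ_{n,d}(t)` is at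
least `1`, while the conjectured value is `0`. -/
theorem result :
    ¬ Conjecture ∧
    ∀ d m : ℕ, Odd d → Odd m → 5 ≤ m → m < d → Odd ((d + 2 * m).choose m) →
      ∀ (K : Type) [Field K] [CharZero K] (f : E K (d + 2 * m)),
        IsGeneric K (d + 2 * m) d f →
          conjCoeff (d + 2 * m) d m = 0 ∧ 1 ≤ tauCoeff K (d + 2 * m) d f m := by
  refine ⟨?_, ?_⟩
  · intro hC
    obtain ⟨K, _, _, f, hf⟩ := exists_generic 21 11
    have h1 := hC K 21 11 (by decide) (by norm_num) (by norm_num) f hf 5
    have h2 := tau_pos (K := K) (n := 21) (d := 11) (m := 5) (by norm_num) (by decide)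
      (by norm_num) (by decide) (generic_mem hf)
    have h3 : conjCoeff 21 11 5 = 0 := conj_zero (d := 11) (m := 5) (le_refl 5)
    omega
  · intro d m _ hm h5 hmd hc K _ _ f hf
    exact ⟨conj_zero h5, tau_pos rfl hm hmd hc (generic_mem hf)⟩

end Pool.Agent.Results.MP_071b90_al.ConjectureFails
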